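import Pool.Agent.Q284.PX.Stm4

/-!
# Project PX4 (helper284), JOB PX4-INV (helper38)

Intermediate value theorem for a product of Dirichlet kernels.
-/

set_option autoImplicit false

namespace Pool.Agent.Q38.PX4

open Finset
open Pool.Agent.Q284.PX

/-- a continuous function without zeros has constant sign -/
lemma sign_const {g : ℝ → ℝ} {a b : ℝ} (hab : a ≤ b) (hg : ContinuousOn g (Set.Icc a b))
    (h0 : ∀ x ∈ Set.Icc a b, g x ≠ 0) : 0 < g a * g b := by
  by_contra hc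
  rw [not_lt] at hc
  have h1 : (0 : ℝ) ∈ Set.uIcc (g a) (g b) := by
    rw [Set.mem_uIcc]
    rcases le_total (g a) 0 with h | h
    · left
      refine ⟨h, ?_⟩
      have h2 := lt_of_le_of_ne h (h0 a ⟨le_rfl, hab⟩)
      by_contra h3
      rw [not_le] at h3
      nlinarith [mul_pos_of_neg_of_neg h2 h3]
    · right
      refine ⟨?_, h⟩
      have h2 := lt_of_le_of_ne h (h0 a ⟨le_rfl, hab⟩).symm
      by_contra h3
      rw [not_le] at h3
      nlinarith [mul_pos h2 h3]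
  have hg' : ContinuousOn g (Set.uIcc a b) := by rwa [Set.uIcc_of_le hab]
  obtain ⟨x, hx, hx0⟩ := intermediate_value_uIcc hg' h1
  rw [Set.uIcc_of_le hab] at hx
  exact h0 x hx hx0

lemma sin_ne (N : ℕ) (j : ℤ) (hj : ¬ (N : ℤ) ∣ j) (x₀ δ : ℝ)
    (hx : (N : ℝ) * x₀ = 2 * Real.pi * j) (hδ : (N : ℝ) * |δ| < 2 * Real.pi) :
    Real.sin ((x₀ + δ) / 2) ≠ 0 := by
  intro h
  obtain ⟨m, hm⟩ := Real.sin_eq_zero_iff.mp h
  have h1 : (N : ℝ) * δ = 2 * Real.pi * ((m * N - j : ℤ) : ℝ) := by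
    push_cast
    linear_combination (-2 * (N : ℝ)) * hm - hx
  have h2 : (m * N - j : ℤ) ≠ 0 := by
    intro h0
    exact hj ⟨m, by linarith⟩
  have h3 : (1 : ℝ) ≤ |((m * N - j : ℤ) : ℝ)| := by
    have := Int.one_le_abs h2
    exact_mod_cast this
  have h4 : (N : ℝ) * |δ| = 2 * Real.pi * |((m * N - j : ℤ) : ℝ)| := by
    rw [← Nat.abs_cast N, ← abs_mul, h1, abs_mul, abs_of_pos (by positivity : (0 : ℝ) < 2 * Real.pi)]
  rw [h4] at hδ
  nlinarith [Real.pi_pos]

lemma lin_add {r : ℕ} (c φ η : Fin r → ℝ) (δ k : ℝ) :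
    lin c (fun i => k * (φ i + δ * η i)) = k * (lin c φ + δ * lin c η) := by
  unfold lin
  rw [mul_add, mul_sum, mul_sum, mul_sum, ← sum_add_distrib]
  refine sum_congr rfl fun i _ => ?_
  ring

lemma lin_add' {r : ℕ} (c φ η : Fin r → ℝ) (δ : ℝ) :
    lin c (fun i => φ i + δ * η i) = lin c φ + δ * lin c η := by
  have := lin_add c φ η δ 1
  simpa using this

/-- **INV** of project PX4 -/
theorem t_INV (hC : S_CHR) : S_INV := by
  classical
  obtain ⟨hC1, hC2, hC3, -⟩ := hC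
  intro A _ _ r α a₀ η c hc hη
  -- constants
  set c' : ℝ := min c 1 with hc'
  have hc'0 : 0 < c' := lt_min hc one_pos
  have hc'1 : c' ≤ 1 := min_le_right _ _
  have hc'c : c' ≤ c := min_le_left _ _
  set β : ℝ := 1 + ∑ b : A, |lin (α b) η| with hβ
  have hβ1 : 1 ≤ β := by
    rw [hβ]
    have : 0 ≤ ∑ b : A, |lin (α b) η| := sum_nonneg fun _ _ => abs_nonneg _
    linarith
  have hβb : ∀ b : A, |lin (α b) η| ≤ β := by
    intro b
    have h1 : |lin (α b) η| ≤ ∑ b : A, |lin (α b) η| :=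
      single_le_sum (f := fun b => |lin (α b) η|) (fun _ _ => abs_nonneg _) (mem_univ b)
    rw [hβ]
    linarith
  set κ : ℝ := (c' / 2) ^ (univ.erase a₀).card with hκ
  have hκ0 : 0 < κ := by positivity
  have hpi := Real.pi_pos
  have hpi3 := Real.pi_gt_three
  set Q : ℝ := 2 * Real.pi * β / (1000 * κ * c') with hQ
  have hQ0 : 0 < Q := by positivity
  obtain ⟨N₀, hN₀⟩ := exists_nat_ge (Q ^ 2)
  refine ⟨Real.pi / κ, N₀ + 1, by positivity, ?_⟩
  intro N hN φ₀ j hx₀ hj hsin z hz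
  have hN1 : 1 ≤ N := by omega
  have hNR : (1 : ℝ) ≤ N := by exact_mod_cast hN1
  have hNpos : (0 : ℝ) < N := by linarith
  set x₀ : ℝ := lin (α a₀) φ₀ with hx₀d
  set δ₀ : ℝ := c' / (2 * (N : ℝ) ^ 2 * β) with hδ₀
  have hδ₀0 : 0 < δ₀ := by positivity
  have hδ₀e : δ₀ * (2 * (N : ℝ) ^ 2 * β) = c' := by
    rw [hδ₀]; field_simp
  -- N * δ₀ ≤ 1/2
  have hNδ : (N : ℝ) * δ₀ ≤ 1 / 2 := by
    have h1 : (N : ℝ) * δ₀ * (2 * N * β) ≤ 1 := by
      calc (N : ℝ) * δ₀ * (2 * N * β) = δ₀ * (2 * (N : ℝ) ^ 2 * β) := by ring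
        _ ≤ 1 := by rw [hδ₀e]; exact hc'1
    have h2 : (2 : ℝ) ≤ 2 * N * β := by nlinarith
    have h3 : (0 : ℝ) ≤ (N : ℝ) * δ₀ := by positivity
    nlinarith
  -- the other factors
  set R : ℝ → ℝ := fun δ => ∏ b ∈ univ.erase a₀, DN N (lin (α b) φ₀ + δ * lin (α b) η) with hR
  have hDNc : Continuous (DN N) := by
    unfold DN
    fun_prop
  have hRc : Continuous R := by
    rw [hR]
    refine continuous_finsetProd _ fun b _ => ?_
    exact hDNc.comp (by fun_prop)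
  have hfac : ∀ δ : ℝ, |δ| ≤ δ₀ → ∀ b ∈ univ.erase a₀,
      c' / 2 ≤ |DN N (lin (α b) φ₀ + δ * lin (α b) η)| := by
    intro δ hδ b hb
    have hb' : b ≠ a₀ := (mem_erase.mp hb).1
    have h1 : c' ≤ |DN N (lin (α b) φ₀)| := by
      have h2 := hsin b hb'
      have h3 := hC3 N (lin (α b) φ₀)
      rw [← h3, abs_mul] at h2
      have h4 : |Real.sin (lin (α b) φ₀ / 2)| ≤ 1 := Real.abs_sin_le_one _
      have h5 := abs_nonneg (DN N (lin (α b) φ₀))
      nlinarith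
    have h2 := hC2 N (lin (α b) φ₀) (lin (α b) φ₀ + δ * lin (α b) η)
    have h3 : |lin (α b) φ₀ - (lin (α b) φ₀ + δ * lin (α b) η)| = |δ| * |lin (α b) η| := by
      rw [sub_add_cancel_left, abs_neg, abs_mul]
    rw [h3] at h2
    have h4 : (N : ℝ) ^ 2 * (|δ| * |lin (α b) η|) ≤ c' / 2 := by
      calc (N : ℝ) ^ 2 * (|δ| * |lin (α b) η|) ≤ (N : ℝ) ^ 2 * (δ₀ * β) := by
            have := hβb b
            gcongr
        _ = δ₀ * (2 * (N : ℝ) ^ 2 * β) / 2 := by ring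
        _ = c' / 2 := by rw [hδ₀e]
    have h5 := abs_sub_abs_le_abs_sub (DN N (lin (α b) φ₀)) (DN N (lin (α b) φ₀ + δ * lin (α b) η))
    linarith
  have hRκ : ∀ δ : ℝ, |δ| ≤ δ₀ → κ ≤ |R δ| := by
    intro δ hδ
    simp only [hR, hκ]
    rw [abs_prod, ← prod_const]
    exact prod_le_prod (fun _ _ => by positivity) (hfac δ hδ)
  -- the sine
  have hsne : ∀ δ : ℝ, |δ| ≤ δ₀ → Real.sin ((x₀ + δ) / 2) ≠ 0 := by
    intro δ hδ
    refine sin_ne N j hj x₀ δ hx₀ ?_
    have : (N : ℝ) * |δ| ≤ N * δ₀ := by gcongr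
    linarith
  set P : ℝ → ℝ := fun δ => (-1) ^ j * (R δ / Real.sin ((x₀ + δ) / 2)) with hP
  have habs1 : |((-1 : ℝ)) ^ j| = 1 := by
    rw [abs_zpow, abs_neg, abs_one, one_zpow]
  have hPκ : ∀ δ : ℝ, |δ| ≤ δ₀ → κ ≤ |P δ| := by
    intro δ hδ
    simp only [hP]
    rw [abs_mul, habs1, one_mul, abs_div]
    have h1 : 0 < |Real.sin ((x₀ + δ) / 2)| := abs_pos.mpr (hsne δ hδ)
    have h2 : |Real.sin ((x₀ + δ) / 2)| ≤ 1 := Real.abs_sin_le_one _
    rw [le_div_iff₀ h1]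
    have h3 := hRκ δ hδ
    nlinarith
  set f : ℝ → ℝ := fun δ => ch α N (fun i => φ₀ i + δ * η i) with hf
  have hfR : ∀ δ, f δ = DN N (x₀ + δ) * R δ := by
    intro δ
    simp only [hf, hR]
    unfold ch
    rw [← mul_prod_erase univ _ (mem_univ a₀), lin_add', hη, mul_one]
    congr 1
    exact prod_congr rfl fun b _ => by rw [lin_add']
  have hfP : ∀ δ : ℝ, |δ| ≤ δ₀ → f δ = Real.sin (N * δ / 2) * P δ := by
    intro δ hδ
    have h1 := hC3 N (x₀ + δ)
    have h2 : Real.sin ((N : ℝ) * (x₀ + δ) / 2) = (-1) ^ j * Real.sin (N * δ / 2) := by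
      have e1 : (N : ℝ) * (x₀ + δ) / 2 = N * δ / 2 + j * Real.pi := by
        have e2 : (N : ℝ) * (x₀ + δ) / 2 = (N : ℝ) * x₀ / 2 + N * δ / 2 := by ring
        rw [e2, hx₀]
        ring
      rw [e1, Real.sin_add_int_mul_pi]
    rw [h2] at h1
    have h3 := hsne δ hδ
    have h4 : DN N (x₀ + δ) = (-1) ^ j * Real.sin (N * δ / 2) / Real.sin ((x₀ + δ) / 2) := by
      rw [eq_div_iff h3, ← h1]
      ring
    rw [hfR, h4]
    simp only [hP]
    ring
  have hfc : Continuous f := by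
    have : f = fun δ => DN N (x₀ + δ) * R δ := funext hfR
    rw [this]
    exact (hDNc.comp (by fun_prop)).mul hRc
  -- lower bound
  have hlow : ∀ δ : ℝ, |δ| ≤ δ₀ → κ * (N * |δ| / Real.pi) ≤ |f δ| := by
    intro δ hδ
    rw [hfP δ hδ, abs_mul]
    have h1 : N * |δ| / Real.pi ≤ |Real.sin (N * δ / 2)| := by
      have h2 : |(N : ℝ) * δ / 2| ≤ Real.pi / 2 := by
        rw [abs_div, abs_mul, Nat.abs_cast, abs_two]
        have : (N : ℝ) * |δ| ≤ N * δ₀ := by gcongr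
        linarith
      have h3 := Real.mul_abs_le_abs_sin h2
      refine le_trans (le_of_eq ?_) h3
      rw [abs_div, abs_mul, Nat.abs_cast, abs_two]
      field_simp
    have h2 := hPκ δ hδ
    have h3 : 0 ≤ N * |δ| / Real.pi := by positivity
    calc κ * (N * |δ| / Real.pi) = (N * |δ| / Real.pi) * κ := by ring
      _ ≤ |Real.sin (N * δ / 2)| * |P δ| := by gcongr
  -- the ends
  have hδm : |(-δ₀)| ≤ δ₀ := by rw [abs_neg, abs_of_pos hδ₀0]
  have hδp : |δ₀| ≤ δ₀ := by rw [abs_of_pos hδ₀0]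
  have hbig : |z| ≤ κ * (N * δ₀ / Real.pi) := by
    refine hz.trans ?_
    have hA : 1 ≤ Fintype.card A := Fintype.card_pos_iff.mpr ⟨a₀⟩
    have h1 : (N : ℝ) ^ ((3 : ℝ) / 2) ≤ ((N ^ Fintype.card A : ℕ) : ℝ) ^ ((3 : ℝ) / 2) := by
      apply Real.rpow_le_rpow hNpos.le _ (by norm_num)
      push_cast
      calc (N : ℝ) = (N : ℝ) ^ 1 := (pow_one _).symm
        _ ≤ (N : ℝ) ^ Fintype.card A := pow_le_pow_right₀ hNR hA
    have h2 : (N : ℝ) ^ ((3 : ℝ) / 2) = N * √N := by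
      rw [show (3 : ℝ) / 2 = 1 + 1 / 2 by norm_num, Real.rpow_add hNpos, Real.rpow_one, Real.sqrt_eq_rpow]
    have h3 : Q ≤ √(N : ℝ) := by
      apply Real.le_sqrt_of_sq_le
      have : (N₀ : ℝ) ≤ N := by exact_mod_cast (by omega : N₀ ≤ N)
      linarith
    have h4 : N * δ₀ / Real.pi * κ = κ * c' / (2 * Real.pi * β * N) := by
      rw [hδ₀]
      field_simp
    have h5 : 0 < √(N : ℝ) := lt_of_lt_of_le hQ0 h3
    calc 1 / (1000 * ((N ^ Fintype.card A : ℕ) : ℝ) ^ ((3 : ℝ) / 2)) ≤ 1 / (1000 * (N : ℝ) ^ ((3 : ℝ) / 2)) := by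
          apply one_div_le_one_div_of_le
          · positivity
          · linarith
      _ = 1 / (1000 * (N * √N)) := by rw [h2]
      _ ≤ 1 / (1000 * (N * Q)) := by
          apply one_div_le_one_div_of_le
          · positivity
          · have : (N : ℝ) * Q ≤ N * √N := by gcongr
            linarith
      _ = κ * c' / (2 * Real.pi * β * N) := by
          rw [hQ]
          field_simp
      _ = κ * (N * δ₀ / Real.pi) := by rw [← h4]; ring
  have hfm : |z| ≤ |f (-δ₀)| := by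
    have := hlow (-δ₀) hδm
    rw [abs_neg, abs_of_pos hδ₀0] at this
    exact hbig.trans this
  have hfp : |z| ≤ |f δ₀| := by
    have := hlow δ₀ hδp
    rw [abs_of_pos hδ₀0] at this
    exact hbig.trans this
  have hmem : ∀ δ : ℝ, δ ∈ Set.Icc (-δ₀) δ₀ → |δ| ≤ δ₀ := fun δ hδ => abs_le.mpr hδ
  have hPsign : 0 < P (-δ₀) * P δ₀ := by
    refine sign_const (by linarith) ?_ ?_
    · simp only [hP]
      refine ContinuousOn.mul continuousOn_const (ContinuousOn.div hRc.continuousOn ?_ ?_)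
      · exact (Continuous.continuousOn (by fun_prop))
      · exact fun δ hδ => hsne δ (hmem δ hδ)
    · intro δ hδ h0
      have := hPκ δ (hmem δ hδ)
      rw [h0, abs_zero] at this
      linarith
  have hprod : f (-δ₀) * f δ₀ ≤ 0 := by
    rw [hfP _ hδm, hfP _ hδp]
    have e1 : (N : ℝ) * -δ₀ / 2 = -(N * δ₀ / 2) := by ring
    rw [e1, Real.sin_neg]
    have e2 : -Real.sin (N * δ₀ / 2) * P (-δ₀) * (Real.sin (N * δ₀ / 2) * P δ₀) =
        -(Real.sin (N * δ₀ / 2) ^ 2 * (P (-δ₀) * P δ₀)) := by ring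
    rw [e2]
    have := mul_nonneg (sq_nonneg (Real.sin (N * δ₀ / 2))) hPsign.le
    linarith
  have hzmem : z ∈ Set.uIcc (f (-δ₀)) (f δ₀) := by
    rw [Set.mem_uIcc]
    have hz1 := abs_le.mp (le_refl |z|)
    rcases le_total 0 (f (-δ₀)) with h1 | h1
    · rcases le_total 0 (f δ₀) with h2 | h2
      · -- both nonneg: product zero
        rw [abs_of_nonneg h1] at hfm
        rw [abs_of_nonneg h2] at hfp
        have h3 : |z| = 0 := by
          have h4 := abs_nonneg z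
          nlinarith
        have h5 : z = 0 := abs_eq_zero.mp h3
        have h6 : f (-δ₀) * f δ₀ = 0 := le_antisymm hprod (mul_nonneg h1 h2)
        rcases mul_eq_zero.mp h6 with h7 | h7
        · left; rw [h5, h7]; exact ⟨le_rfl, h2⟩
        · right; rw [h5, h7]; exact ⟨le_rfl, h1⟩
      · right
        rw [abs_of_nonneg h1] at hfm
        rw [abs_of_nonpos h2] at hfp
        constructor <;> linarith [hz1.1, hz1.2]
    · rcases le_total 0 (f δ₀) with h2 | h2
      · left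
        rw [abs_of_nonpos h1] at hfm
        rw [abs_of_nonneg h2] at hfp
        constructor <;> linarith [hz1.1, hz1.2]
      · rw [abs_of_nonpos h1] at hfm
        rw [abs_of_nonpos h2] at hfp
        have h3 : |z| = 0 := by
          have h4 := abs_nonneg z
          nlinarith
        have h5 : z = 0 := abs_eq_zero.mp h3
        have h6 : f (-δ₀) * f δ₀ = 0 := le_antisymm hprod (mul_nonneg_of_nonpos_of_nonpos h1 h2)
        rcases mul_eq_zero.mp h6 with h7 | h7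
        · right; rw [h5, h7]; exact ⟨h2, le_rfl⟩
        · left; rw [h5, h7]; exact ⟨h1, le_rfl⟩
  obtain ⟨δ, hδm', hδz⟩ := intermediate_value_uIcc hfc.continuousOn hzmem
  rw [Set.uIcc_of_le (by linarith)] at hδm'
  have hδle : |δ| ≤ δ₀ := hmem δ hδm'
  have hδb : |δ| ≤ Real.pi / κ * |z| / N := by
    have h1 := hlow δ hδle
    rw [hδz] at h1
    have h2 : |δ| = κ * (N * |δ| / Real.pi) * (Real.pi / κ / N) := by field_simp
    have h3 : 0 ≤ Real.pi / κ / N := by positivity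
    calc |δ| = κ * (N * |δ| / Real.pi) * (Real.pi / κ / N) := h2
      _ ≤ |z| * (Real.pi / κ / N) := by gcongr
      _ = Real.pi / κ * |z| / N := by ring
  refine ⟨δ, hδb, hδz, ?_⟩
  intro k hk hkj
  unfold ch
  rw [← mul_prod_erase univ _ (mem_univ a₀), abs_mul, abs_prod]
  have hkR : (1 : ℝ) ≤ k := by exact_mod_cast hk
  have h0 : DN N (k * x₀) = 0 := by
    have h1 := hC3 N (k * x₀)
    have h2 : Real.sin ((N : ℝ) * (k * x₀) / 2) = 0 := by
      have e1 : (N : ℝ) * (k * x₀) / 2 = ((k * j : ℤ) : ℝ) * Real.pi := by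
        have e2 : (N : ℝ) * (k * x₀) / 2 = k * ((N : ℝ) * x₀) / 2 := by ring
        rw [e2, hx₀]
        push_cast
        ring
      rw [e1, Real.sin_int_mul_pi]
    rw [h2] at h1
    refine (mul_eq_zero.mp h1).resolve_left ?_
    have h3 := sin_ne N (k * j) hkj (k * x₀) 0 (by
      have e2 : (N : ℝ) * (k * x₀) = k * ((N : ℝ) * x₀) := by ring
      rw [e2, hx₀]
      push_cast
      ring) (by rw [abs_zero, mul_zero]; positivity)
    rwa [add_zero] at h3
  have h1 : |DN N (lin (α a₀) (fun i => (k : ℝ) * (φ₀ i + δ * η i)))| ≤ (N : ℝ) ^ 2 * (k * |δ|) := by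
    rw [lin_add, hη, mul_one]
    have h2 := hC2 N (k * (x₀ + δ)) (k * x₀)
    rw [h0, sub_zero] at h2
    refine h2.trans (le_of_eq ?_)
    congr 1
    rw [mul_add, add_sub_cancel_left, abs_mul, Nat.abs_cast]
  have h2 : ∏ b ∈ univ.erase a₀, |DN N (lin (α b) (fun i => (k : ℝ) * (φ₀ i + δ * η i)))| ≤
      (N : ℝ) ^ (univ.erase a₀).card := by
    rw [← prod_const]
    exact prod_le_prod (fun _ _ => abs_nonneg _) (fun b _ => (hC1 N _).1)
  have h3 : (univ.erase a₀).card + 1 = Fintype.card A := by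
    rw [card_erase_of_mem (mem_univ a₀), card_univ]
    have : 1 ≤ Fintype.card A := Fintype.card_pos_iff.mpr ⟨a₀⟩
    omega
  have hcN : Fintype.card A = (univ.erase a₀).card + 1 := h3.symm
  have hcast : ((N ^ Fintype.card A : ℕ) : ℝ) = (N : ℝ) ^ (univ.erase a₀).card * N := by
    rw [hcN]
    push_cast
    rw [pow_succ]
  rw [hcast]
  have h4 : 0 ≤ ∏ b ∈ univ.erase a₀, |DN N (lin (α b) (fun i => (k : ℝ) * (φ₀ i + δ * η i)))| :=
    prod_nonneg fun _ _ => abs_nonneg _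
  have h5 : (N : ℝ) ^ 2 * (k * |δ|) ≤ (N : ℝ) ^ 2 * (k * (Real.pi / κ * |z| / N)) :=
    mul_le_mul_of_nonneg_left (mul_le_mul_of_nonneg_left hδb (by linarith)) (sq_nonneg _)
  have h6 : (0 : ℝ) ≤ (N : ℝ) ^ 2 * (k * |δ|) :=
    mul_nonneg (sq_nonneg _) (mul_nonneg (by linarith) (abs_nonneg _))
  have h7 := mul_le_mul (h1.trans h5) h2 h4 (h6.trans h5)
  refine h7.trans (le_of_eq ?_)
  have h8 : (N : ℝ) ≠ 0 := hNpos.ne'
  have h9 : (N : ℝ) ^ 2 * (k * (Real.pi / κ * |z| / N)) = Real.pi / κ * k * N * |z| := by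
    field_simp
  rw [h9]
  ring

end Pool.Agent.Q38.PX4
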