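import Mathlib

set_option autoImplicit false

/-! # Project PX (helper35), job DIM: filtered algebras (helper38) -/

namespace Pool.Agent.Q38.PX

section filt

variable {C B : Type} [CommRing C] [CommRing B] [Algebra C B] {σ : Type} [Fintype σ]

/-- the monomial -/
def mon (x : σ → B) (a : σ → ℕ) : B := ∏ i, x i ^ a i

/-- the weight -/
def wt (w a : σ → ℕ) : ℕ := ∑ i, a i * w i

/-- the span of the monomials of weight `< n` -/
def M (C : Type) {B : Type} [CommRing C] [CommRing B] [Algebra C B] {σ : Type} [Fintype σ]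
    (x : σ → B) (w : σ → ℕ) (n : ℕ) : Submodule C B :=
  Submodule.span C {b | ∃ a : σ → ℕ, wt w a < n ∧ b = mon x a}

variable (x : σ → B) (w : σ → ℕ)

theorem mon_add (a b : σ → ℕ) : mon x (a + b) = mon x a * mon x b := by
  unfold mon
  rw [← Finset.prod_mul_distrib]
  exact Finset.prod_congr rfl fun i _ => pow_add _ _ _

theorem wt_add (a b : σ → ℕ) : wt w (a + b) = wt w a + wt w b := by
  unfold wt
  rw [← Finset.sum_add_distrib]
  exact Finset.sum_congr rfl fun i _ => add_mul _ _ _

theorem mon_mem {a : σ → ℕ} {n : ℕ} (h : wt w a < n) : mon x a ∈ M C x w n :=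
  Submodule.subset_span ⟨a, h, rfl⟩

theorem M_mono {n n' : ℕ} (h : n ≤ n') : M C x w n ≤ M C x w n' :=
  Submodule.span_mono fun _ ⟨a, ha, hb⟩ => ⟨a, ha.trans_le h, hb⟩

theorem M_mul {n n' : ℕ} {u v : B} (hu : u ∈ M C x w (n + 1)) (hv : v ∈ M C x w n') :
    u * v ∈ M C x w (n + n') := by
  have h1 : u * v ∈ M C x w (n + 1) * M C x w n' := Submodule.mul_mem_mul hu hv
  refine (?_ : M C x w (n + 1) * M C x w n' ≤ M C x w (n + n')) h1
  unfold M
  rw [Submodule.span_mul_span, Submodule.span_le]
  rintro _ ⟨_, ⟨a, ha, rfl⟩, _, ⟨b, hb, rfl⟩, rfl⟩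
  refine Submodule.subset_span ⟨a + b, ?_, (mon_add x a b).symm⟩
  rw [wt_add]
  omega

theorem one_mem_M : (1 : B) ∈ M C x w 1 := by
  have h := mon_mem (C := C) x w (a := 0) (n := 1) (by unfold wt; simp)
  unfold mon at h
  simpa using h

theorem alg_mem_M (c : C) : algebraMap C B c ∈ M C x w 1 := by
  rw [Algebra.algebraMap_eq_smul_one]
  exact Submodule.smul_mem _ _ (one_mem_M x w)

/-- congruence modulo terms of lower weight -/
def Rel (C : Type) {B : Type} [CommRing C] [CommRing B] [Algebra C B] {σ : Type} [Fintype σ]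
    (x : σ → B) (w : σ → ℕ) (p : ℕ) (u v : B) : Prop :=
  u ∈ M C x w (p + 1) ∧ v ∈ M C x w (p + 1) ∧ u - v ∈ M C x w p

theorem Rel.mul {p q : ℕ} {u v u' v' : B} (h : Rel C x w p u v) (h' : Rel C x w q u' v') :
    Rel C x w (p + q) (u * u') (v * v') := by
  obtain ⟨h1, h2, h3⟩ := h
  obtain ⟨h1', h2', h3'⟩ := h'
  refine ⟨?_, ?_, ?_⟩
  · exact (M_mul (n' := q + 1) x w h1 h1' : u * u' ∈ M C x w (p + (q + 1)))
  · exact (M_mul (n' := q + 1) x w h2 h2' : v * v' ∈ M C x w (p + (q + 1)))
  · have e : u * u' - v * v' = u' * (u - v) + v * (u' - v') := by ring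
    rw [e]
    refine Submodule.add_mem _ ?_ (M_mul x w h2 h3')
    rw [add_comm p q]
    exact M_mul x w h1' h3

theorem Rel.one : Rel C x w 0 (1 : B) 1 := by
  refine ⟨one_mem_M x w, one_mem_M x w, ?_⟩
  rw [sub_self]
  exact Submodule.zero_mem _

theorem Rel.pow {p : ℕ} {u v : B} (h : Rel C x w p u v) (n : ℕ) :
    Rel C x w (n * p) (u ^ n) (v ^ n) := by
  induction n with
  | zero =>
    rw [pow_zero, pow_zero, Nat.zero_mul]
    exact Rel.one x w
  | succ n ih =>
    rw [pow_succ, pow_succ, Nat.add_mul, Nat.one_mul]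
    exact ih.mul x w h

theorem Rel.prod {ι : Type} (s : Finset ι) (p : ι → ℕ) (u v : ι → B)
    (h : ∀ j ∈ s, Rel C x w (p j) (u j) (v j)) :
    Rel C x w (∑ j ∈ s, p j) (∏ j ∈ s, u j) (∏ j ∈ s, v j) := by
  classical
  induction s using Finset.induction_on with
  | empty => exact Rel.one x w
  | insert a s ha ih =>
    rw [Finset.sum_insert ha, Finset.prod_insert ha, Finset.prod_insert ha]
    exact (h a (Finset.mem_insert_self a s)).mul x w
      (ih fun j hj => h j (Finset.mem_insert_of_mem hj))

theorem M_fg (hw : ∀ i, 0 < w i) (n : ℕ) : (M C x w n).FG := by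
  classical
  refine Submodule.fg_span ?_
  have h : {b | ∃ a : σ → ℕ, wt w a < n ∧ b = mon x a} ⊆
      (mon x) '' (↑(Fintype.piFinset fun _ : σ => Finset.range n) : Set (σ → ℕ)) := by
    rintro b ⟨a, ha, rfl⟩
    refine ⟨a, ?_, rfl⟩
    rw [Finset.mem_coe, Fintype.mem_piFinset]
    intro i
    rw [Finset.mem_range]
    refine lt_of_le_of_lt ?_ ha
    calc a i ≤ a i * w i := Nat.le_mul_of_pos_right _ (hw i)
      _ ≤ wt w a := Finset.single_le_sum (f := fun i => a i * w i) (fun _ _ => Nat.zero_le _)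
        (Finset.mem_univ i)
  exact ((Finset.finite_toSet _).image _).subset h

/-- **The filtration stops.** -/
theorem M_stab (hpow : ∀ i, ∃ N : ℕ, x i ^ N ∈ M C x w (N * w i)) :
    ∃ c : ℕ, 1 ≤ c ∧ ∀ n, M C x w n ≤ M C x w c := by
  classical
  choose N hN using hpow
  refine ⟨∑ i, N i * w i + 1, by omega, fun n => ?_⟩
  have key : ∀ n : ℕ, ∀ a : σ → ℕ, wt w a = n → mon x a ∈ M C x w (∑ i, N i * w i + 1) := by
    intro n
    induction n using Nat.strong_induction_on with
    | _ n ih =>
      intro a ha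
      by_cases hlt : wt w a < ∑ i, N i * w i + 1
      · exact mon_mem x w hlt
      · obtain ⟨i, hi⟩ : ∃ i, N i ≤ a i := by
          by_contra hcon
          push Not at hcon
          apply hlt
          refine Nat.lt_succ_of_le (Finset.sum_le_sum fun i _ => ?_)
          exact Nat.mul_le_mul_right _ (hcon i).le
        obtain ⟨b, hb⟩ : ∃ b : σ → ℕ, a = b + Pi.single i (N i) := by
          refine ⟨a - Pi.single i (N i), ?_⟩
          funext j
          by_cases hj : j = i
          · subst hj
            simp [hi]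
          · simp [hj]
        have hs1 : mon x (Pi.single i (N i)) = x i ^ N i := by
          unfold mon
          rw [Finset.prod_eq_single i]
          · rw [Pi.single_eq_same]
          · intro j _ hj
            rw [Pi.single_eq_of_ne hj, pow_zero]
          · intro h
            exact absurd (Finset.mem_univ i) h
        have hs2 : wt w (Pi.single i (N i)) = N i * w i := by
          unfold wt
          rw [Finset.sum_eq_single i]
          · rw [Pi.single_eq_same]
          · intro j _ hj
            rw [Pi.single_eq_of_ne hj, Nat.zero_mul]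
          · intro h
            exact absurd (Finset.mem_univ i) h
        have h1 : mon x a ∈ M C x w (wt w a) := by
          rw [hb, mon_add, wt_add, hs1, hs2]
          exact M_mul x w (mon_mem x w (Nat.lt_succ_self _)) (hN i)
        refine (?_ : M C x w (wt w a) ≤ M C x w (∑ i, N i * w i + 1)) h1
        rw [ha]
        conv_lhs => unfold M
        rw [Submodule.span_le]
        rintro _ ⟨c, hc, rfl⟩
        exact ih _ hc c rfl
  conv_lhs => unfold M
  rw [Submodule.span_le]
  rintro _ ⟨c, _, rfl⟩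
  exact key _ c rfl

/-- everything is integral -/
theorem M_integral [IsDomain B] (hw : ∀ i, 0 < w i)
    (hpow : ∀ i, ∃ N : ℕ, x i ^ N ∈ M C x w (N * w i)) {n : ℕ} {u : B} (hu : u ∈ M C x w n) :
    IsIntegral C u := by
  obtain ⟨c, hc1, hc⟩ := M_stab (C := C) x w hpow
  refine isIntegral_of_smul_mem_submodule (M := B) (M C x w c) ?_ (M_fg x w hw c) u fun v hv => ?_
  · intro h0
    have h1 : (1 : B) ∈ M C x w c := M_mono x w hc1 (one_mem_M x w)
    rw [h0, Submodule.mem_bot] at h1
    exact one_ne_zero h1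
  · rw [smul_eq_mul]
    exact hc _ (M_mul x w (M_mono x w (Nat.le_succ n) hu) hv)

end filt

end Pool.Agent.Q38.PX
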