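import Pool.Agent.Q35.PX.Stm
import Pool.Agent.Q38.PX.DimA

set_option autoImplicit false

/-! # Project PX (helper35), job DIM (helper38) -/

namespace Pool.Agent.Q38.PX

open MvPolynomial Pool.Agent.Q35.PX

theorem weight_eq {σ : Type} [Fintype σ] (w : σ → ℕ) (a : σ →₀ ℕ) :
    Finsupp.weight w a = wt w a := by
  rw [Finsupp.weight_apply, Finsupp.sum_fintype _ _ (fun i => by simp)]
  rfl

section poly

variable {k : Type} [Field k] {B : Type} [CommRing B] [Algebra k B] (C : Subalgebra k B)
  {σ : Type} [Fintype σ] (x : σ → B) (w : σ → ℕ)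

theorem scal_mem {n : ℕ} (c : k) {b : B} (hb : b ∈ M C x w n) :
    algebraMap k B c * b ∈ M C x w n := by
  have h := (M C x w n).smul_mem (algebraMap k C c) hb
  have e : (algebraMap k C c) • b = algebraMap k B c * b := by
    rw [Algebra.smul_def]
    rfl
  rwa [e] at h

/-- values of weighted homogeneous polynomials -/
theorem aeval_mem {p : MvPolynomial σ k} {n : ℕ} (hp : IsWeightedHomogeneous w p n) :
    aeval x p ∈ M C x w (n + 1) := by
  rw [aeval_def, eval₂_eq']
  refine Submodule.sum_mem _ fun a ha => scal_mem C x w _ ?_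
  refine mon_mem x w (a := a) ?_
  rw [← weight_eq, hp (mem_support_iff.1 ha)]
  exact Nat.lt_succ_self n

/-- congruent values -/
theorem aeval_rel {ι : Type} [Fintype ι] (d : ι → ℕ) (u v : ι → B)
    (h : ∀ j, Rel C x w (d j) (u j) (v j)) {H : MvPolynomial ι k} {m : ℕ}
    (hH : IsWeightedHomogeneous d H m) : aeval u H - aeval v H ∈ M C x w m := by
  rw [aeval_def, aeval_def, eval₂_eq', eval₂_eq', ← Finset.sum_sub_distrib]
  refine Submodule.sum_mem _ fun b hb => ?_
  rw [← mul_sub]
  refine scal_mem C x w _ ?_
  have h1 := Rel.prod (C := C) x w Finset.univ (fun j => b j * d j) (fun j => u j ^ b j)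
    (fun j => v j ^ b j) (fun j _ => (h j).pow x w (b j))
  have h2 : ∑ j, b j * d j = m := by
    have h3 := hH (mem_support_iff.1 hb)
    rw [weight_eq] at h3
    exact h3
  rw [h2] at h1
  exact h1.2.2

omit [Fintype σ] in
/-- substitution of weighted homogeneous polynomials -/
theorem bind_homog {ι : Type} [Fintype ι] (d : ι → ℕ) (f : ι → MvPolynomial σ k)
    (hf : ∀ j, IsWeightedHomogeneous w (f j) (d j)) {H : MvPolynomial ι k} {m : ℕ}
    (hH : IsWeightedHomogeneous d H m) : IsWeightedHomogeneous w (bind₁ f H) m := by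
  have h0 : bind₁ f H = eval₂ C f H := rfl
  rw [h0, eval₂_eq']
  rw [← mem_weightedHomogeneousSubmodule]
  refine Submodule.sum_mem _ fun b hb => ?_
  rw [mem_weightedHomogeneousSubmodule]
  have h1 := IsWeightedHomogeneous.prod Finset.univ (fun j => f j ^ b j) (fun j => b j * d j)
    (w := w) (fun j _ => by
      have h2 := (hf j).pow (b j)
      rwa [smul_eq_mul] at h2)
  have h2 : ∑ j, b j * d j = m := by
    have h3 := hH (mem_support_iff.1 hb)
    rw [weight_eq] at h3
    exact h3
  rw [h2] at h1
  have h3 := (isWeightedHomogeneous_C w (coeff b H)).mul h1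
  rwa [zero_add] at h3

/-- components of multiples of a homogeneous element -/
theorem comp_mem {g : MvPolynomial σ k} {m : ℕ} (hg : IsWeightedHomogeneous w g m)
    (hgm : aeval x g ∈ M C x w m) (A : MvPolynomial σ k) (n : ℕ) :
    aeval x (weightedHomogeneousComponent w n (A * g)) ∈ M C x w n := by
  classical
  rw [A.as_sum, Finset.sum_mul, map_sum, map_sum]
  refine Submodule.sum_mem _ fun a _ => ?_
  have h1 : IsWeightedHomogeneous w (monomial a (coeff a A)) (wt w a) :=
    isWeightedHomogeneous_monomial w a _ (weight_eq w a)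
  have h2 := h1.mul hg
  by_cases hn : wt w a + m = n
  · rw [← hn, h2.weightedHomogeneousComponent_same, map_mul]
    exact M_mul x w (aeval_mem C x w h1) hgm
  · rw [h2.weightedHomogeneousComponent_ne n (fun h => hn h.symm), map_zero]
    exact Submodule.zero_mem _

end poly

/-- **PX-DIM** -/
theorem dim : S_Dim := by
  classical
  intro k _ _ σ ι Λ _ _ w d f H m K _ _ y J hw hd hf hH hzero hy hJ
  -- Nullstellensatz
  have hN : ∀ i : σ, ∃ N : ℕ, (X i : MvPolynomial σ k) ^ N ∈
      Ideal.span (Set.range fun l => bind₁ f (H l)) := by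
    intro i
    have h1 : (X i : MvPolynomial σ k) ∈
        (Ideal.span (Set.range fun l => bind₁ f (H l))).radical := by
      rw [← vanishingIdeal_zeroLocus_eq_radical (K := k), mem_vanishingIdeal_iff]
      intro p hp
      have h2 : p = 0 := by
        refine hzero p fun l => ?_
        have h3 := hp (bind₁ f (H l)) (Ideal.subset_span ⟨l, rfl⟩)
        rw [aeval_bind₁] at h3
        exact h3
      rw [aeval_X, h2]
      rfl
    exact h1
  -- the ring
  let B := MvPolynomial σ K
  let x : σ → B := X
  let F : ι → B := fun j => aeval x (f j)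
  let Y : ι → B := fun j => C (y j)
  let h : ι → B := fun j => F j - Y j
  let R : Subalgebra k B := Algebra.adjoin k (Set.range h)
  have hh : ∀ j, h j ∈ M R x w 1 := fun j =>
    alg_mem_M (C := R) x w ⟨h j, Algebra.subset_adjoin ⟨j, rfl⟩⟩
  have hrel : ∀ j, Rel R x w (d j) (F j) (Y j) := by
    intro j
    have h1 : F j ∈ M R x w (d j + 1) := aeval_mem R x w (hf j)
    have h2 : h j ∈ M R x w (d j) := M_mono x w (hd j) (hh j)
    have h3 : Y j = F j - h j := by
      show Y j = F j - (F j - Y j)
      ring
    refine ⟨h1, ?_, h2⟩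
    rw [h3]
    exact Submodule.sub_mem _ h1 (M_mono x w (Nat.le_succ _) h2)
  have hg : ∀ l, aeval x (bind₁ f (H l)) ∈ M R x w (m l) := by
    intro l
    have h1 := aeval_rel R x w d F Y hrel (hH l)
    have h2 : aeval Y (H l) = 0 := by
      have h3 : aeval Y (H l) = C (aeval y (H l)) :=
        (aeval_algebraMap_apply (B := B) y (H l))
      rw [h3, hy l, C_0]
    rw [h2, sub_zero] at h1
    rw [aeval_bind₁]
    exact h1
  have hpow : ∀ i, ∃ N : ℕ, x i ^ N ∈ M R x w (N * w i) := by
    intro i
    obtain ⟨N, hN⟩ := hN i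
    refine ⟨N, ?_⟩
    obtain ⟨c, hc⟩ := (Finsupp.mem_ideal_span_range_iff_exists_finsupp).1 hN
    have h1 : IsWeightedHomogeneous w ((X i : MvPolynomial σ k) ^ N) (N * w i) := by
      have h2 := (isWeightedHomogeneous_X k w i : IsWeightedHomogeneous w (X i : MvPolynomial σ k) (w i)).pow N
      rwa [smul_eq_mul] at h2
    have h2 : aeval x (weightedHomogeneousComponent w (N * w i)
        (c.sum fun (l : Λ) (a : MvPolynomial σ k) => a * bind₁ f (H l))) =
        aeval x (weightedHomogeneousComponent w (N * w i) ((X i : MvPolynomial σ k) ^ N)) := by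
      rw [hc]
    rw [h1.weightedHomogeneousComponent_same, map_pow, aeval_X] at h2
    rw [← h2, Finsupp.sum, map_sum, map_sum]
    refine Submodule.sum_mem _ fun (l : Λ) _ => ?_
    exact comp_mem R x w (bind_homog w d f hf (hH l)) (hg l) (c l) _
  have hint : ∀ {n : ℕ} {u : B}, u ∈ M R x w n → IsIntegral R u := fun hu =>
    M_integral x w hw hpow hu
  -- the elements
  have hz : AlgebraicIndependent k (Sum.elim x ((algebraMap K B) ∘ fun j : {j // j ∈ J} => y j)) :=
    AlgebraicIndependent.sumElim_comp hJ (algebraicIndependent_X σ K)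
  have hzi : ∀ s, Sum.elim x ((algebraMap K B) ∘ fun j : {j // j ∈ J} => y j) s ∈
      Subalgebra.algebraicClosure R B := by
    intro s
    rw [Subalgebra.mem_algebraicClosure]
    rcases s with i | j
    · have h1 : aeval x (X i : MvPolynomial σ k) ∈ M R x w (w i + 1) :=
        aeval_mem R x w (isWeightedHomogeneous_X k w i)
      rw [aeval_X] at h1
      exact (hint h1).isAlgebraic
    · exact (hint (hrel j).2.1).isAlgebraic
  have hcl : Set.range (Sum.elim x ((algebraMap K B) ∘ fun j : {j // j ∈ J} => y j)) ⊆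
      (AlgebraicIndependent.matroid k B).closure (Set.range h) := by
    rw [AlgebraicIndependent.matroid_closure_eq]
    rintro _ ⟨s, rfl⟩
    exact hzi s
  have hind : (AlgebraicIndependent.matroid k B).Indep
      (Set.range (Sum.elim x ((algebraMap K B) ∘ fun j : {j // j ∈ J} => y j))) := by
    rw [AlgebraicIndependent.matroid_indep_iff]
    exact hz.coe_range
  have h1 := hind.eRk_eq_encard
  have h2 := (AlgebraicIndependent.matroid k B).eRk_mono hcl
  rw [Matroid.eRk_closure_eq, h1] at h2
  have h3 := (hz.injective.encard_range.trans h2).trans ((AlgebraicIndependent.matroid k B).eRk_le_encard (Set.range h))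
  rw [← Set.image_univ] at h3
  have h4 := h3.trans (Set.encard_image_le h Set.univ)
  rw [Set.encard_univ, ENat.card_eq_coe_fintype_card, ENat.card_eq_coe_fintype_card,
    Nat.cast_le, Fintype.card_sum, Fintype.card_coe] at h4
  exact h4

end Pool.Agent.Q38.PX
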